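import Pool.Graph.R_seed8.R418.GE.A

set_option autoImplicit false

/-!
# Sequences which are linear along progressions: exact uniform distribution
-/

namespace Pool.Agent.H73.CU

open Finset Pool.Agent.TH869.EVF

/-- for the primes not dividing `D` the sequence `a` is linear and not constant modulo `p` on every
progression with difference `p ^ 2 - 1` -/
def Lin (D : ℤ) (a : ℕ → ℤ) : Prop := ∀ p : ℕ, p.Prime → ¬ (p : ℤ) ∣ D → ∀ n : ℕ, ∃ c : ℤ,
  ¬ (p : ℤ) ∣ c ∧ ∀ j : ℕ, (p : ℤ) ∣ a (n + (p ^ 2 - 1) * j) - a n - c * j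

/-- good primes -/
def Gp (D : ℤ) (p : ℕ) : Prop := p.Prime ∧ p ≠ 2 ∧ ¬ (p : ℤ) ∣ D

/-- the period -/
def per (p : ℕ) : ℕ := p * (p ^ 2 - 1)

theorem per_pos {p : ℕ} (hp : p.Prime) : 0 < per p := by
  unfold per
  have h := hp.two_le
  have h1 : 4 ≤ p ^ 2 := by nlinarith
  exact Nat.mul_pos (by omega) (by omega)

theorem per_le (p : ℕ) : per p ≤ p ^ 3 := by
  unfold per
  calc p * (p ^ 2 - 1) ≤ p * p ^ 2 := Nat.mul_le_mul_left _ (Nat.sub_le _ _)
    _ = p ^ 3 := by ring

theorem lin_period {D : ℤ} {a : ℕ → ℤ} (ha : Lin D a) {p : ℕ} (hp : Gp D p) {M : ℕ}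
    (hM : per p ∣ M) (n : ℕ) : ((a (n + M) : ℤ) : ZMod p) = (a n : ZMod p) := by
  obtain ⟨k, rfl⟩ := hM
  obtain ⟨c, _, hc⟩ := ha p hp.1 hp.2.2 n
  have h1 := hc (p * k)
  have e : n + (p ^ 2 - 1) * (p * k) = n + per p * k := by unfold per; ring
  rw [e] at h1
  rw [← sub_eq_zero, ← Int.cast_sub, ZMod.intCast_zmod_eq_zero_iff_dvd]
  have h2 : (p : ℤ) ∣ c * ((p * k : ℕ) : ℤ) := by
    push_cast
    exact Dvd.intro_left (c * k) (by ring)
  have h3 := dvd_add h1 h2
  have e2 : a (n + per p * k) - a n - c * ((p * k : ℕ) : ℤ) + c * ((p * k : ℕ) : ℤ) =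
      a (n + per p * k) - a n := by ring
  rwa [e2] at h3

/-- the other primes -/
theorem coprime_of_lt {p q : ℕ} (hp : p.Prime) (hq : q.Prime) (hq2 : q ≠ 2) (hlt : q < p) :
    Nat.Coprime (per q) p := by
  unfold per
  have h2 := hq.two_le
  have h3 : q ^ 2 - 1 = (q - 1) * (q + 1) := by
    obtain ⟨r, rfl⟩ := Nat.exists_eq_add_of_le h2
    have : (2 + r) ^ 2 = (2 + r - 1) * (2 + r + 1) + 1 := by
      have : 2 + r - 1 = 1 + r := by omega
      rw [this]
      ring
    omega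
  rw [h3]
  have hc : ∀ m : ℕ, 0 < m → m < p → Nat.Coprime m p := by
    intro m hm0 hm
    rw [Nat.coprime_comm, hp.coprime_iff_not_dvd]
    intro h
    exact absurd (Nat.le_of_dvd hm0 h) (by omega)
  have h4 : q + 1 < p := by
    rcases hq.eq_two_or_odd' with h | h
    · exact absurd h hq2
    · rcases hp.eq_two_or_odd' with h' | h'
      · omega
      · obtain ⟨r, hr⟩ := h
        obtain ⟨t, ht⟩ := h'
        omega
  exact Nat.Coprime.mul_left (hc q (by omega) hlt)
    (Nat.Coprime.mul_left (hc (q - 1) (by omega) (by omega)) (hc (q + 1) (by omega) h4))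

theorem coprime_self {p : ℕ} (hp : p.Prime) : Nat.Coprime (p ^ 2 - 1) p := by
  rw [Nat.coprime_comm, hp.coprime_iff_not_dvd]
  intro h
  have h2 := hp.two_le
  have h1 : 1 ≤ p ^ 2 := by nlinarith
  have h3 : p ∣ 1 := by
    have h4 : p ∣ p ^ 2 := dvd_pow_self p (by norm_num)
    have := (Nat.dvd_sub_iff_right h1 h4).1 h
    exact this
  exact hp.one_lt.ne' (Nat.dvd_one.1 h3)

/-- the sum over a progression with difference coprime to `p` -/
theorem sum_prog {D : ℤ} {a : ℕ → ℤ} (ha : Lin D a) {p : ℕ} (hp : Gp D p) {T : ℕ}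
    (hT : Nat.Coprime T p) (n : ℕ) (F : ZMod p → ℝ) [Fact p.Prime] :
    ∑ j ∈ range p, F ((a (n + (p ^ 2 - 1) * T * j) : ℤ) : ZMod p) = ∑ t : ZMod p, F t := by
  obtain ⟨c, hc0, hc⟩ := ha p hp.1 hp.2.2 n
  have e1 : ∀ j : ℕ, ((a (n + (p ^ 2 - 1) * T * j) : ℤ) : ZMod p) =
      (a n : ZMod p) + (c : ZMod p) * (T : ZMod p) * (j : ZMod p) := by
    intro j
    have h1 := hc (T * j)
    rw [← ZMod.intCast_zmod_eq_zero_iff_dvd, ← mul_assoc] at h1
    push_cast at h1
    have h2 := sub_eq_zero.1 h1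
    have h3 := sub_eq_iff_eq_add.1 h2
    rw [h3]
    ring
  have hcz : (c : ZMod p) ≠ 0 := by
    intro h
    exact hc0 ((ZMod.intCast_zmod_eq_zero_iff_dvd _ _).1 h)
  have hTz : (T : ZMod p) ≠ 0 := by
    intro h
    rw [ZMod.natCast_eq_zero_iff] at h
    have h1 : p ∣ Nat.gcd T p := Nat.dvd_gcd h dvd_rfl
    rw [hT] at h1
    exact hp.1.one_lt.ne' (Nat.dvd_one.1 h1)
  have hcT : (c : ZMod p) * (T : ZMod p) ≠ 0 := mul_ne_zero hcz hTz
  simp_rw [e1]
  have e2 : ∑ j ∈ range p, F ((a n : ZMod p) + (c : ZMod p) * (T : ZMod p) * (j : ZMod p)) =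
      ∑ t : ZMod p, F ((a n : ZMod p) + (c : ZMod p) * (T : ZMod p) * t) := by
    refine sum_nbij' (fun j => (j : ZMod p)) ZMod.val ?_ ?_ ?_ ?_ ?_
    · intro j _
      exact mem_univ _
    · intro t _
      rw [mem_range]
      exact ZMod.val_lt t
    · intro j hj
      rw [mem_range] at hj
      exact ZMod.val_cast_of_lt hj
    · intro t _
      exact ZMod.natCast_zmod_val t
    · intro j _
      rfl
  rw [e2]
  exact Fintype.sum_bijective
    (fun t : ZMod p => (a n : ZMod p) + (c : ZMod p) * (T : ZMod p) * t)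
    (Function.Bijective.comp (g := fun t => (a n : ZMod p) + t)
      (AddGroup.addLeft_bijective _) (mulLeft_bijective₀ _ hcT)) _ _ fun _ => rfl

/-- splitting of a range -/
theorem sum_split (G : ℕ → ℝ) (M p : ℕ) :
    ∑ n ∈ range (M * p), G n = ∑ r ∈ range M, ∑ j ∈ range p, G (r + M * j) := by
  induction p with
  | zero => simp
  | succ p ih =>
    rw [Nat.mul_succ, sum_range_add, ih]
    simp_rw [sum_range_succ]
    rw [sum_add_distrib]
    congr 1
    refine sum_congr rfl fun r _ => ?_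
    rw [add_comm]

theorem sum_rep (G : ℕ → ℝ) (L m : ℕ) (hG : Per G L) :
    ∑ n ∈ range (L * m), G n = m * ∑ n ∈ range L, G n := by
  rw [mul_comm L m, sum_range_mul hG]

/-- **exact independence** -/
theorem sum_prodA {D : ℤ} {a : ℕ → ℤ} (ha : Lin D a) (P : Finset ℕ) (F : ∀ p : ℕ, ZMod p → ℝ) :
    (∀ p ∈ P, Gp D p) → ∑ n ∈ range (∏ p ∈ P, per p), ∏ p ∈ P, F p (a n : ZMod p) =
      ∏ p ∈ P, (((p ^ 2 - 1 : ℕ) : ℝ) * ∑ t ∈ range p, F p (t : ZMod p)) := by
  classical
  induction P using Finset.induction_on_max with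
  | empty => intro _; simp
  | insert p s hmax ih =>
    intro hP
    have hps : p ∉ s := fun h => lt_irrefl _ (hmax p h)
    have hpG := hP p (mem_insert_self _ _)
    have hsG : ∀ q ∈ s, Gp D q := fun q hq => hP q (mem_insert_of_mem hq)
    have fp : Fact p.Prime := ⟨hpG.1⟩
    have ih' := ih hsG
    set L : ℕ := ∏ q ∈ s, per q with hL
    have hLp : Nat.Coprime L p := by
      rw [hL]
      exact Nat.Coprime.prod_left fun q hq =>
        coprime_of_lt hpG.1 (hsG q hq).1 (hsG q hq).2.1 (hmax q hq)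
    have hperL : ∀ q ∈ s, per q ∣ L := fun q hq => by rw [hL]; exact dvd_prod_of_mem _ hq
    set M : ℕ := (p ^ 2 - 1) * L with hM
    rw [prod_insert hps, ← hL]
    have e0 : per p * L = M * p := by rw [hM]; unfold per; ring
    rw [e0, sum_split]
    have e1 : ∀ r ∈ range M, ∑ j ∈ range p,
        ∏ q ∈ insert p s, F q (a (r + M * j) : ZMod q) =
        (∏ q ∈ s, F q (a r : ZMod q)) * ∑ t ∈ range p, F p (t : ZMod p) := by
      intro r _
      have e2 : ∀ j ∈ range p, ∏ q ∈ insert p s, F q (a (r + M * j) : ZMod q) =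
          (∏ q ∈ s, F q (a r : ZMod q)) * F p (a (r + (p ^ 2 - 1) * L * j) : ZMod p) := by
        intro j _
        rw [prod_insert hps, mul_comm]
        congr 1
        refine prod_congr rfl fun q hq => ?_
        rw [lin_period ha (hsG q hq) (M := M * j)]
        exact Dvd.dvd.mul_right (Dvd.dvd.mul_left (hperL q hq) _) _
      rw [sum_congr rfl e2, ← mul_sum, sum_prog ha hpG hLp]
      congr 1
      refine (sum_nbij' (fun j : ℕ => (j : ZMod p)) ZMod.val ?_ ?_ ?_ ?_ ?_).symm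
      · intro j _
        exact mem_univ _
      · intro t _
        rw [mem_range]
        exact ZMod.val_lt t
      · intro j hj
        rw [mem_range] at hj
        exact ZMod.val_cast_of_lt hj
      · intro t _
        exact ZMod.natCast_zmod_val t
      · intro j _
        rfl
    rw [sum_congr rfl e1, ← sum_mul]
    have hper : Per (fun n => ∏ q ∈ s, F q (a n : ZMod q)) L := by
      intro n
      refine prod_congr rfl fun q hq => ?_
      rw [lin_period ha (hsG q hq) (hperL q hq)]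
    have e3 : ∑ r ∈ range M, ∏ q ∈ s, F q (a r : ZMod q) =
        ((p ^ 2 - 1 : ℕ) : ℝ) * ∑ r ∈ range L, ∏ q ∈ s, F q (a r : ZMod q) := by
      have := sum_rep _ L (p ^ 2 - 1) hper
      rw [mul_comm L] at this
      exact this
    rw [e3, ih', prod_insert hps]
    ring

end Pool.Agent.H73.CU
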