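import Pool.Agent.H73.CU.A

set_option autoImplicit false

/-!
# High moments of sums over primes along sequences which are linear along progressions
-/

namespace Pool.Agent.H73.CU

open Finset Pool.Agent.TH869.EVF

/-- the mean of a product of values at given primes -/
noncomputable def mu {k : ℕ} (h : ∀ p : ℕ, ZMod p → ℝ) (c : Fin k → ℕ) : ℝ :=
  ∏ p ∈ univ.image c, ((∑ t ∈ range p, h p (t : ZMod p) ^ (univ.filter fun i => c i = p).card) / p)

theorem mean_a {D : ℤ} {a : ℕ → ℤ} (ha : Lin D a) {k : ℕ} (h : ∀ p : ℕ, ZMod p → ℝ)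
    (c : Fin k → ℕ) (hc : ∀ i, Gp D (c i)) :
    ∑ n ∈ range (∏ p ∈ univ.image c, per p), ∏ i, h (c i) (a n : ZMod (c i)) =
      ((∏ p ∈ univ.image c, per p : ℕ) : ℝ) * mu h c := by
  classical
  have e1 : ∀ n, ∏ i, h (c i) (a n : ZMod (c i)) =
      ∏ p ∈ univ.image c, (fun (p : ℕ) (t : ZMod p) =>
        h p t ^ (univ.filter fun i => c i = p).card) p (a n : ZMod p) := by
    intro n
    exact prod_comp (fun p => h p (a n : ZMod p)) c
  have hG : ∀ p ∈ univ.image c, Gp D p := by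
    intro p hp
    rw [mem_image] at hp
    obtain ⟨i, _, rfl⟩ := hp
    exact hc i
  rw [sum_congr rfl fun n _ => e1 n,
    sum_prodA ha _ (fun (p : ℕ) (t : ZMod p) => h p t ^ (univ.filter fun i => c i = p).card) hG]
  unfold mu
  push_cast
  rw [← prod_mul_distrib]
  refine prod_congr rfl fun p hp => ?_
  have hp0 : (p : ℝ) ≠ 0 := by exact_mod_cast (hG p hp).1.ne_zero
  unfold per
  push_cast
  field_simp

theorem mean_id {k : ℕ} (h : ∀ p : ℕ, ZMod p → ℝ) (P : Finset ℕ) (hP : ∀ p ∈ P, p.Prime)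
    (c : Fin k → ℕ) (hc : ∀ i, c i ∈ P) :
    ∑ n ∈ range (∏ p ∈ P, p), ∏ i, h (c i) (n : ZMod (c i)) =
      ((∏ p ∈ P, p : ℕ) : ℝ) * mu h c := by
  classical
  have e1 : ∀ n : ℕ, ∏ i, h (c i) (n : ZMod (c i)) =
      ∏ p ∈ univ.image c, (fun (p n : ℕ) =>
        h p (n : ZMod p) ^ (univ.filter fun i => c i = p).card) p n := by
    intro n
    exact prod_comp (fun p => h p (n : ZMod p)) c
  have himg : univ.image c ⊆ P := by
    intro p hp
    rw [mem_image] at hp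
    obtain ⟨i, _, rfl⟩ := hp
    exact hc i
  have hperp : ∀ p ∈ univ.image c, Per ((fun (p n : ℕ) =>
        h p (n : ZMod p) ^ (univ.filter fun i => c i = p).card) p) p := by
    intro p _ n
    simp only
    push_cast
    rw [ZMod.natCast_self, add_zero]
  have hQM : (∏ p ∈ univ.image c, p) ∣ ∏ p ∈ P, p := prod_dvd_prod_of_subset _ _ _ himg
  obtain ⟨m, hm⟩ := hQM
  have hper : Per (fun n : ℕ => ∏ p ∈ univ.image c, (fun (p n : ℕ) =>
        h p (n : ZMod p) ^ (univ.filter fun i => c i = p).card) p n) (∏ p ∈ univ.image c, p) :=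
    Pool.Agent.R418.GE.per_prod _ _ _ fun p hp => (hperp p hp).of_dvd (dvd_prod_of_mem _ hp)
  rw [sum_congr rfl fun n _ => e1 n, hm, sum_rep _ _ _ hper,
    Pool.Agent.R418.GE.sum_prod _ (fun p hp => hP p (himg hp)) _ hperp]
  unfold mu
  push_cast
  rw [mul_comm _ (m : ℝ), mul_assoc, ← prod_mul_distrib]
  congr 1
  refine prod_congr rfl fun p hp => ?_
  have hp0 : (p : ℝ) ≠ 0 := by exact_mod_cast (hP p (himg hp)).ne_zero
  field_simp

/-- even moments -/
theorem moment {D : ℤ} {a : ℕ → ℤ} (ha : Lin D a) (P : Finset ℕ) (x : ℕ)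
    (hP : ∀ p ∈ P, Gp D p ∧ p ≤ x) (h : ∀ p : ℕ, ZMod p → ℝ) (h1 : ∀ p t, |h p t| ≤ 1)
    (h0 : ∀ p ∈ P, ∑ n ∈ range p, h p (n : ZMod p) = 0) (V : ℝ) (hV1 : 1 ≤ V)
    (hV : ∑ p ∈ P, (∑ n ∈ range p, h p (n : ZMod p) ^ 2) / p ≤ V) (k N : ℕ)
    (hN : x ^ (8 * k) ≤ N) :
    ∑ n ∈ range N, (∑ p ∈ P, h p (a n : ZMod p)) ^ (2 * k) ≤
      N * (((2 * k).factorial * (2 * Real.exp 1) + 2) * V ^ k) := by
  classical
  obtain ⟨M, hM⟩ : ∃ M : ℕ, M = ∏ p ∈ P, p := ⟨_, rfl⟩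
  have hPp : ∀ p ∈ P, p.Prime := fun p hp => (hP p hp).1.1
  have hM0 : 0 < M := by rw [hM]; exact prod_pos fun p hp => (hPp p hp).pos
  have hMr : (0 : ℝ) < M := by exact_mod_cast hM0
  have hfull := Pool.Agent.R418.GE.full_moment P hPp (fun p n => h p (n : ZMod p))
    (fun p _ n => by
      simp only
      push_cast
      rw [ZMod.natCast_self, add_zero]) (fun p n => h1 p _) h0 V hV1 hV k
  rw [← hM] at hfull
  have hexpand : ∀ (L : ℕ) (f : ∀ p : ℕ, ℕ → ℝ), ∑ n ∈ range L, (∑ p ∈ P, f p n) ^ (2 * k) =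
      ∑ c ∈ Fintype.piFinset (fun _ : Fin (2 * k) => P), ∑ n ∈ range L, ∏ i, f (c i) n := by
    intro L f
    rw [sum_comm]
    refine sum_congr rfl fun n _ => ?_
    rw [sum_pow']
  rw [hexpand M (fun p n => h p (n : ZMod p))] at hfull
  have hmu : ∑ c ∈ Fintype.piFinset (fun _ : Fin (2 * k) => P), mu h c ≤
      (2 * k).factorial * (2 * Real.exp 1) * V ^ k := by
    have e1 : ∀ c ∈ Fintype.piFinset (fun _ : Fin (2 * k) => P),
        ∑ n ∈ range M, ∏ i, (fun (p n : ℕ) => h p (n : ZMod p)) (c i) n = M * mu h c := by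
      intro c hc
      rw [Fintype.mem_piFinset] at hc
      rw [hM]
      exact mean_id h P hPp c hc
    rw [sum_congr rfl e1, ← mul_sum] at hfull
    exact le_of_mul_le_mul_left hfull hMr
  have hterm : ∀ c ∈ Fintype.piFinset (fun _ : Fin (2 * k) => P),
      ∑ n ∈ range N, ∏ i, h (c i) (a n : ZMod (c i)) ≤ N * mu h c + 2 * (x : ℝ) ^ (6 * k) := by
    intro c hc
    rw [Fintype.mem_piFinset] at hc
    obtain ⟨L, hL⟩ : ∃ L : ℕ, L = ∏ p ∈ univ.image c, per p := ⟨_, rfl⟩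
    have himg : univ.image c ⊆ P := by
      intro p hp
      rw [mem_image] at hp
      obtain ⟨i, _, rfl⟩ := hp
      exact hc i
    have hL0 : 0 < L := by rw [hL]; exact prod_pos fun p hp => per_pos (hPp p (himg hp))
    have hLr : (0 : ℝ) < L := by exact_mod_cast hL0
    have hLx : L ≤ x ^ (6 * k) := by
      rcases Nat.eq_zero_or_pos (2 * k) with hk0 | hk0
      · rw [hL]
        have : univ.image c = ∅ := by
          rw [image_eq_empty, univ_eq_empty_iff]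
          rw [hk0]
          infer_instance
        have hk : k = 0 := by omega
        rw [this, prod_empty, hk, mul_zero, pow_zero]
      · have hx1 : 1 ≤ x := by
          have h2 := hP (c ⟨0, hk0⟩) (hc ⟨0, hk0⟩)
          exact h2.1.1.pos.trans_le h2.2
        calc L ≤ ∏ p ∈ univ.image c, x ^ 3 := by
              rw [hL]
              exact prod_le_prod' fun p hp => (per_le p).trans
                (Nat.pow_le_pow_left (hP p (himg hp)).2 3)
          _ = (x ^ 3) ^ (univ.image c).card := prod_const _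
          _ ≤ (x ^ 3) ^ (2 * k) := Nat.pow_le_pow_right (Nat.one_le_pow _ _ hx1) (by
              have := card_image_le (s := univ) (f := c)
              rwa [card_univ, Fintype.card_fin] at this)
          _ = x ^ (6 * k) := by rw [← pow_mul]; congr 1; ring
    have hper' : Per (fun n => ∏ i, h (c i) (a n : ZMod (c i))) L := by
      intro n
      refine prod_congr rfl fun i _ => ?_
      rw [lin_period ha (hP _ (hc i)).1]
      rw [hL]
      exact dvd_prod_of_mem _ (mem_image_of_mem c (mem_univ i))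
    have hle' : ∀ n, |∏ i, h (c i) (a n : ZMod (c i))| ≤ 1 := by
      intro n
      rw [abs_prod]
      exact prod_le_one (fun i _ => abs_nonneg _) fun i _ => h1 _ _
    have h3 := Pool.Agent.R418.GE.compare (fun n => ∏ i, h (c i) (a n : ZMod (c i))) L L N hL0 hL0
      dvd_rfl hper' hle'
    have h5 := mean_a ha h c (fun i => (hP _ (hc i)).1)
    rw [← hL] at h5
    rw [h5] at h3
    have h6 : (N / L : ℝ) * (L * mu h c) = N * mu h c := by field_simp
    rw [h6] at h3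
    have h4 : (L : ℝ) ≤ (x : ℝ) ^ (6 * k) := by exact_mod_cast hLx
    linarith
  rw [hexpand N (fun p n => h p (a n : ZMod p))]
  refine (sum_le_sum hterm).trans ?_
  rw [sum_add_distrib, ← mul_sum, sum_const, Fintype.card_piFinset_const, nsmul_eq_mul]
  have hNr : (0 : ℝ) ≤ N := Nat.cast_nonneg N
  have h5 : (N : ℝ) * ∑ c ∈ Fintype.piFinset (fun _ : Fin (2 * k) => P), mu h c ≤
      N * ((2 * k).factorial * (2 * Real.exp 1) * V ^ k) := mul_le_mul_of_nonneg_left hmu hNr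
  have hPc : P.card ≤ x := by
    have h6 : P ⊆ Icc 1 x := by
      intro p hp
      rw [mem_Icc]
      exact ⟨(hPp p hp).pos, (hP p hp).2⟩
    have := card_le_card h6
    rwa [Nat.card_Icc, Nat.add_sub_cancel] at this
  have h7 : ((P.card ^ (2 * k) : ℕ) : ℝ) * (2 * (x : ℝ) ^ (6 * k)) ≤ N * (2 * V ^ k) := by
    have h8 : ((P.card ^ (2 * k) : ℕ) : ℝ) ≤ (x : ℝ) ^ (2 * k) := by
      push_cast
      exact pow_le_pow_left₀ (Nat.cast_nonneg _) (by exact_mod_cast hPc) _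
    have h9 : (x : ℝ) ^ (2 * k) * (x : ℝ) ^ (6 * k) ≤ N := by
      rw [← pow_add]
      have e1 : 2 * k + 6 * k = 8 * k := by ring
      rw [e1]
      exact_mod_cast hN
    have h10 : (1 : ℝ) ≤ V ^ k := one_le_pow₀ hV1
    calc ((P.card ^ (2 * k) : ℕ) : ℝ) * (2 * (x : ℝ) ^ (6 * k))
        ≤ (x : ℝ) ^ (2 * k) * (2 * (x : ℝ) ^ (6 * k)) :=
          mul_le_mul_of_nonneg_right h8 (by positivity)
      _ = 2 * ((x : ℝ) ^ (2 * k) * (x : ℝ) ^ (6 * k)) := by ring
      _ ≤ 2 * N := by linarith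
      _ ≤ N * (2 * V ^ k) := by nlinarith
  calc _ ≤ N * ((2 * k).factorial * (2 * Real.exp 1) * V ^ k) + N * (2 * V ^ k) :=
        add_le_add h5 h7
    _ = _ := by ring

open Classical in
/-- the primes up to `x` which are odd and do not divide `D` -/
noncomputable def pr (D : ℤ) (x : ℕ) : Finset ℕ := (range (x + 1)).filter fun p => Gp D p

theorem mem_pr {D : ℤ} {x p : ℕ} : p ∈ pr D x ↔ Gp D p ∧ p ≤ x := by
  classical
  unfold pr
  rw [mem_filter, mem_range]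
  constructor
  · rintro ⟨h1, h2⟩
    exact ⟨h2, by omega⟩
  · rintro ⟨h1, h2⟩
    exact ⟨by omega, h1⟩

/-- the mean value over the residues modulo `p` -/
noncomputable def mean (p : ℕ) (G : ZMod p → ℝ) : ℝ := (∑ n ∈ range p, G (n : ZMod p)) / p

/-- a sum over the primes -/
noncomputable def cnt (D : ℤ) (g : ∀ p : ℕ, ZMod p → ℝ) (x : ℕ) (j : ℤ) : ℝ :=
  ∑ p ∈ pr D x, g p (j : ZMod p)

/-- its model -/
noncomputable def mdl (D : ℤ) (g : ∀ p : ℕ, ZMod p → ℝ) (x : ℕ) : ℝ := ∑ p ∈ pr D x, mean p (g p)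

theorem mean_mem {g : ∀ p : ℕ, ZMod p → ℝ} (hg : ∀ p t, 0 ≤ g p t ∧ g p t ≤ 1) (p : ℕ) :
    0 ≤ mean p (g p) ∧ mean p (g p) ≤ 1 := by
  have h1 : 0 ≤ ∑ n ∈ range p, g p (n : ZMod p) := sum_nonneg fun n _ => (hg p _).1
  have h2 : ∑ n ∈ range p, g p (n : ZMod p) ≤ p := by
    refine (sum_le_sum (g := fun _ => (1 : ℝ)) fun n _ => (hg p _).2).trans ?_
    simp
  refine ⟨div_nonneg h1 (Nat.cast_nonneg p), div_le_one_of_le₀ h2 (Nat.cast_nonneg p)⟩

theorem markov {D : ℤ} {a : ℕ → ℤ} (ha : Lin D a) (g : ∀ p : ℕ, ZMod p → ℝ)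
    (hg : ∀ p t, 0 ≤ g p t ∧ g p t ≤ 1) (δ : ℝ) (k x N : ℕ) (hx : 1 ≤ x)
    (hN : x ^ (8 * k) ≤ N) :
    (((range N).filter (fun j => √(max 1 (mdl D g x)) * (x : ℝ) ^ δ <
      |cnt D g x (a j) - mdl D g x|)).card : ℝ) * (x : ℝ) ^ (2 * k * δ) ≤
        N * ((2 * k).factorial * (2 * Real.exp 1) + 2) := by
  classical
  obtain ⟨V, hV⟩ : ∃ V : ℝ, V = max 1 (mdl D g x) := ⟨_, rfl⟩
  have hV1 : 1 ≤ V := by rw [hV]; exact le_max_left _ _
  have hV0 : 0 < V := by linarith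
  have hVm : mdl D g x ≤ V := by rw [hV]; exact le_max_right _ _
  have hxr : (1 : ℝ) ≤ x := by exact_mod_cast hx
  have hx0 : (0 : ℝ) < x := by linarith
  obtain ⟨h, hh⟩ : ∃ h : ∀ p : ℕ, ZMod p → ℝ, h = fun p t => g p t - mean p (g p) := ⟨_, rfl⟩
  have hm := moment ha (pr D x) x (fun p hp => mem_pr.mp hp) h
    (fun p n => by
      rw [hh, abs_le]
      have h1 := hg p n
      have h2 := mean_mem hg p
      constructor <;> simp only <;> linarith)
    (fun p hp => by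
      have hp0 : (p : ℝ) ≠ 0 := by exact_mod_cast (mem_pr.mp hp).1.1.ne_zero
      rw [hh]
      simp only
      rw [sum_sub_distrib, sum_const, card_range, nsmul_eq_mul, mean, mul_div_cancel₀ _ hp0,
        sub_self])
    V hV1 (by
      refine le_trans (sum_le_sum fun p hp => ?_) hVm
      have hp0 : (0 : ℝ) < p := by exact_mod_cast (mem_pr.mp hp).1.1.pos
      rw [div_le_iff₀ hp0]
      have e1 : mean p (g p) * p = ∑ n ∈ range p, g p (n : ZMod p) := by
        rw [mean, div_mul_cancel₀ _ hp0.ne']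
      have h2 := mean_mem hg p
      rw [hh]
      simp only
      have e2 : ∑ n ∈ range p, (g p (n : ZMod p) - mean p (g p)) ^ 2 =
          ∑ n ∈ range p, g p (n : ZMod p) ^ 2 - 2 * mean p (g p) * ∑ n ∈ range p, g p (n : ZMod p) +
            p * mean p (g p) ^ 2 := by
        have : ∀ n : ℕ, (g p (n : ZMod p) - mean p (g p)) ^ 2 =
          g p (n : ZMod p) ^ 2 - 2 * mean p (g p) * g p (n : ZMod p) +
          mean p (g p) ^ 2 := fun n => by ring
        rw [sum_congr rfl fun n _ => this n, sum_add_distrib, sum_sub_distrib, ← mul_sum,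
          sum_const, card_range, nsmul_eq_mul]
      have e3 : ∑ n ∈ range p, g p (n : ZMod p) ^ 2 ≤ ∑ n ∈ range p, g p (n : ZMod p) := by
        refine sum_le_sum fun n _ => ?_
        have h1 := hg p (n : ZMod p)
        nlinarith
      rw [e2, e1, ← e1]
      have e4 : 0 ≤ (p : ℝ) * mean p (g p) ^ 2 := by positivity
      have e5 : 2 * mean p (g p) * (mean p (g p) * p) = 2 * (p * mean p (g p) ^ 2) := by ring
      rw [e5]
      have e6 : ∑ n ∈ range p, g p (n : ZMod p) ^ 2 ≤ mean p (g p) * p := by rw [e1]; exact e3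
      linarith)
    k N hN
  have hsum : ∀ j : ℤ, ∑ p ∈ pr D x, h p (j : ZMod p) = cnt D g x j - mdl D g x := by
    intro j
    rw [hh]
    simp only
    rw [sum_sub_distrib]
    rfl
  rw [← hV]
  have hVk : (0 : ℝ) < V ^ k := by positivity
  have key : (((range N).filter (fun j => √V * (x : ℝ) ^ δ <
      |cnt D g x (a j) - mdl D g x|)).card : ℝ) *
      (V ^ k * (x : ℝ) ^ (2 * k * δ)) ≤
      ∑ n ∈ range N, (∑ p ∈ pr D x, h p (a n : ZMod p)) ^ (2 * k) := by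
    rw [← nsmul_eq_mul, ← sum_const]
    refine le_trans (sum_le_sum fun j hj => ?_)
      (sum_le_sum_of_subset_of_nonneg (filter_subset _ _) fun _ _ _ => by
        rw [pow_mul]; positivity)
    rw [mem_filter] at hj
    rw [hsum]
    have h1 : (√V * (x : ℝ) ^ δ) ^ (2 * k) ≤ |cnt D g x (a j) - mdl D g x| ^ (2 * k) :=
      pow_le_pow_left₀ (by positivity) hj.2.le _
    rw [mul_pow, pow_mul (√V), Real.sq_sqrt hV0.le, pow_mul |cnt D g x (a j) - mdl D g x|, sq_abs,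
      ← pow_mul] at h1
    refine le_trans (le_of_eq ?_) h1
    congr 1
    rw [← Real.rpow_natCast, ← Real.rpow_mul hx0.le]
    congr 1
    push_cast
    ring
  have h3 := key.trans hm
  have h4 : (((range N).filter (fun j => √V * (x : ℝ) ^ δ <
      |cnt D g x (a j) - mdl D g x|)).card : ℝ) *
      (x : ℝ) ^ (2 * k * δ) * V ^ k ≤ N * ((2 * k).factorial * (2 * Real.exp 1) + 2) * V ^ k := by
    calc _ = (((range N).filter (fun j => √V * (x : ℝ) ^ δ <
        |cnt D g x (a j) - mdl D g x|)).card : ℝ) * (V ^ k * (x : ℝ) ^ (2 * k * δ)) := by ring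
      _ ≤ _ := h3
      _ = _ := by ring
  exact le_of_mul_le_mul_right h4 hVk

/-- **independence of the primes** -/
theorem general (δ : ℝ) (A B : ℕ) (hδ : 0 < δ) : ∃ W X₀ : ℕ, 1 ≤ W ∧ 1 ≤ X₀ ∧
    ∀ (D : ℤ) (a : ℕ → ℤ), Lin D a →
    ∀ (ι : Type) (R : ℕ → Finset ι) (g : ℕ → ι → ∀ p : ℕ, ZMod p → ℝ),
      (∀ x, (R x).card ≤ x ^ B) →
      (∀ x r p t, 0 ≤ g x r p t ∧ g x r p t ≤ 1) → ∀ X N : ℕ, X₀ ≤ X → ∀ T : Finset ℕ,
      (∀ j ∈ T, j < N ∧ ∃ x, X ≤ x ∧ x ^ W ≤ N ∧ ∃ r ∈ R x,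
        √(max 1 (mdl D (g x r) x)) * (x : ℝ) ^ δ < |cnt D (g x r) x (a j) - mdl D (g x r) x|) →
      (T.card : ℝ) * (X : ℝ) ^ A ≤ N := by
  obtain ⟨k, hk⟩ : ∃ k : ℕ, k = ⌈(A + B + 3 : ℝ) / (2 * δ)⌉₊ + 1 := ⟨_, rfl⟩
  have hkδ : (A + B + 3 : ℝ) ≤ 2 * k * δ := by
    have h1 : (A + B + 3 : ℝ) / (2 * δ) ≤ k := by
      rw [hk]
      push_cast
      have := Nat.le_ceil ((A + B + 3 : ℝ) / (2 * δ))
      linarith
    rw [div_le_iff₀ (by positivity)] at h1
    linarith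
  obtain ⟨C, hC⟩ : ∃ C : ℝ, C = (2 * k).factorial * (2 * Real.exp 1) + 2 := ⟨_, rfl⟩
  have hC0 : 0 < C := by rw [hC]; positivity
  refine ⟨8 * k, ⌈2 * C⌉₊ + 1, by omega, by omega, ?_⟩
  intro D a ha ι R g hR hg X N hX T hT
  classical
  have hX1 : 1 ≤ X := by omega
  have hXr : (1 : ℝ) ≤ X := by exact_mod_cast hX1
  have hXC : 2 * C ≤ X := by
    have h1 : ((⌈2 * C⌉₊ + 1 : ℕ) : ℝ) ≤ X := by exact_mod_cast hX
    push_cast at h1
    have := Nat.le_ceil (2 * C)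
    linarith
  obtain ⟨S, hS⟩ : ∃ S : ℕ → ι → Finset ℕ, S = fun x r => (range N).filter (fun j =>
    √(max 1 (mdl D (g x r) x)) * (x : ℝ) ^ δ < |cnt D (g x r) x (a j) - mdl D (g x r) x|) :=
    ⟨_, rfl⟩
  have hSc : ∀ x : ℕ, X ≤ x → x ^ (8 * k) ≤ N → ∀ r, ((S x r).card : ℝ) * (x : ℝ) ^ (A + B + 3) ≤
      N * C := by
    intro x hx hxN r
    have hx1 : 1 ≤ x := hX1.trans hx
    have hxr : (1 : ℝ) ≤ x := by exact_mod_cast hx1
    have h1 := markov ha (g x r) (hg x r) δ k x N hx1 hxN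
    rw [← hC] at h1
    rw [hS]
    refine le_trans (mul_le_mul_of_nonneg_left ?_ (Nat.cast_nonneg _)) h1
    rw [← Real.rpow_natCast]
    apply Real.rpow_le_rpow_of_exponent_le hxr
    push_cast
    exact hkδ
  obtain ⟨Y, hY⟩ : ∃ Y : Finset ℕ, Y = (Icc X N).filter (fun x => x ^ (8 * k) ≤ N) := ⟨_, rfl⟩
  have key : T ⊆ Y.biUnion fun x => (R x).biUnion fun r => S x r := by
    intro j hj
    obtain ⟨hjN, x, hx1, hx2, r, hr, hbad⟩ := hT j hj
    rw [mem_biUnion]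
    refine ⟨x, ?_, ?_⟩
    · rw [hY, mem_filter, mem_Icc]
      refine ⟨⟨hx1, ?_⟩, hx2⟩
      exact (Nat.le_self_pow (by omega) x).trans hx2
    · rw [mem_biUnion]
      refine ⟨r, hr, ?_⟩
      rw [hS]
      simp only [mem_filter, mem_range]
      exact ⟨hjN, hbad⟩
  have h1 : (T.card : ℝ) ≤ ∑ x ∈ Y, ∑ r ∈ R x, ((S x r).card : ℝ) := by
    have h2 : T.card ≤ ∑ x ∈ Y, ∑ r ∈ R x, (S x r).card :=
      (card_le_card key).trans (card_biUnion_le.trans (sum_le_sum fun x _ => card_biUnion_le))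
    exact_mod_cast h2
  have h2 : ∀ x ∈ Y, (∑ r ∈ R x, ((S x r).card : ℝ)) * (X : ℝ) ^ (A + 1) ≤
      N * C * ((x : ℝ) ^ 2)⁻¹ := by
    intro x hx
    rw [hY, mem_filter, mem_Icc] at hx
    have hx1 : 1 ≤ x := hX1.trans hx.1.1
    have hxr : (1 : ℝ) ≤ x := by exact_mod_cast hx1
    have hx0 : (0 : ℝ) < x := by linarith
    have h3 : (∑ r ∈ R x, ((S x r).card : ℝ)) * (x : ℝ) ^ (A + B + 3) ≤ (x : ℝ) ^ B * (N * C) := by
      rw [sum_mul]
      refine (sum_le_sum fun r _ => hSc x hx.1.1 hx.2 r).trans ?_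
      rw [sum_const, nsmul_eq_mul]
      refine mul_le_mul_of_nonneg_right ?_ (by positivity)
      exact_mod_cast hR x
    have h4 : (X : ℝ) ^ (A + 1) ≤ (x : ℝ) ^ (A + 1) :=
      pow_le_pow_left₀ (by linarith) (by exact_mod_cast hx.1.1) _
    have h5 : 0 ≤ ∑ r ∈ R x, ((S x r).card : ℝ) := sum_nonneg fun _ _ => Nat.cast_nonneg _
    have h6 : (∑ r ∈ R x, ((S x r).card : ℝ)) * (x : ℝ) ^ (A + 1) * ((x : ℝ) ^ B * (x : ℝ) ^ 2) ≤
        N * C * ((x : ℝ) ^ 2)⁻¹ * ((x : ℝ) ^ B * (x : ℝ) ^ 2) := by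
      calc _ = (∑ r ∈ R x, ((S x r).card : ℝ)) * (x : ℝ) ^ (A + B + 3) := by ring
        _ ≤ (x : ℝ) ^ B * (N * C) := h3
        _ = _ := by field_simp
    have h7 := le_of_mul_le_mul_right h6 (by positivity)
    exact (mul_le_mul_of_nonneg_left h4 h5).trans h7
  have h3 : (T.card : ℝ) * (X : ℝ) ^ (A + 1) ≤ N * C * 2 := by
    calc (T.card : ℝ) * (X : ℝ) ^ (A + 1) ≤
        (∑ x ∈ Y, ∑ r ∈ R x, ((S x r).card : ℝ)) * (X : ℝ) ^ (A + 1) :=
          mul_le_mul_of_nonneg_right h1 (by positivity)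
      _ = ∑ x ∈ Y, (∑ r ∈ R x, ((S x r).card : ℝ)) * (X : ℝ) ^ (A + 1) := sum_mul _ _ _
      _ ≤ ∑ x ∈ Y, N * C * ((x : ℝ) ^ 2)⁻¹ := sum_le_sum h2
      _ = N * C * ∑ x ∈ Y, ((x : ℝ) ^ 2)⁻¹ := by rw [mul_sum]
      _ ≤ N * C * ∑ x ∈ Ioo 0 (N + 1), ((x : ℝ) ^ 2)⁻¹ := by
          apply mul_le_mul_of_nonneg_left _ (by positivity)
          apply sum_le_sum_of_subset_of_nonneg
          · intro x hx
            rw [hY, mem_filter, mem_Icc] at hx
            rw [mem_Ioo]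
            omega
          · intro _ _ _
            positivity
      _ ≤ N * C * 2 := by
          apply mul_le_mul_of_nonneg_left _ (by positivity)
          have := sum_Ioo_inv_sq_le (α := ℝ) 0 (N + 1)
          simpa using this
  have h4 : (T.card : ℝ) * (X : ℝ) ^ A * X ≤ N * X := by
    calc (T.card : ℝ) * (X : ℝ) ^ A * X = (T.card : ℝ) * (X : ℝ) ^ (A + 1) := by ring
      _ ≤ N * C * 2 := h3
      _ = N * (2 * C) := by ring
      _ ≤ N * X := mul_le_mul_of_nonneg_left hXC (Nat.cast_nonneg N)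
  exact le_of_mul_le_mul_right h4 (by linarith)

end Pool.Agent.H73.CU
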