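import Pool.Agent.H73.CU.B

set_option autoImplicit false

/-!
# Examples: exponential polynomials
-/

namespace Pool.Agent.H73.CU

open Finset

/-- congruence preserving exponents, for instance polynomials with natural coefficients -/
def Steady (e : ℕ → ℕ) : Prop := ∀ q n : ℕ, e (n + q) ≡ e n [MOD q]

/-- sequences with period `p ^ 2 - 1` modulo every prime `p` not dividing `D` -/
def Per2 (D : ℤ) (V : ℕ → ℤ) : Prop := ∀ p : ℕ, p.Prime → ¬ (p : ℤ) ∣ D → ∀ n : ℕ,
  (p : ℤ) ∣ V (n + (p ^ 2 - 1)) - V n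

theorem Steady.iter {e : ℕ → ℕ} (he : Steady e) (q n j : ℕ) : e (n + q * j) ≡ e n [MOD q] := by
  induction j with
  | zero => simp [Nat.ModEq]
  | succ j ih =>
    rw [Nat.mul_succ, ← add_assoc]
    exact (he q _).trans ih

theorem steady_id : Steady fun n => n := fun q n => by
  simp [Nat.ModEq]

theorem steady_const (c : ℕ) : Steady fun _ => c := fun _ _ => rfl

theorem Steady.add {e f : ℕ → ℕ} (he : Steady e) (hf : Steady f) : Steady fun n => e n + f n :=
  fun q n => (he q n).add (hf q n)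

theorem Steady.mul {e f : ℕ → ℕ} (he : Steady e) (hf : Steady f) : Steady fun n => e n * f n :=
  fun q n => (he q n).mul (hf q n)

theorem per2_zmod {D : ℤ} {V : ℕ → ℤ} (hV : Per2 D V) {p : ℕ} (hp : p.Prime) (hD : ¬ (p : ℤ) ∣ D)
    (n : ℕ) : ((V (n + (p ^ 2 - 1)) : ℤ) : ZMod p) = (V n : ZMod p) := by
  rw [← sub_eq_zero, ← Int.cast_sub, ZMod.intCast_zmod_eq_zero_iff_dvd]
  exact hV p hp hD n

theorem per2_iter {D : ℤ} {V : ℕ → ℤ} (hV : Per2 D V) {p : ℕ} (hp : p.Prime) (hD : ¬ (p : ℤ) ∣ D)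
    (n j : ℕ) : ((V (n + (p ^ 2 - 1) * j) : ℤ) : ZMod p) = (V n : ZMod p) := by
  induction j with
  | zero => simp
  | succ j ih => rw [Nat.mul_succ, ← add_assoc, per2_zmod hV hp hD, ih]

theorem per2_modEq {D : ℤ} {V : ℕ → ℤ} (hV : Per2 D V) {p : ℕ} (hp : p.Prime) (hD : ¬ (p : ℤ) ∣ D)
    {m n : ℕ} (h : m ≡ n [MOD (p ^ 2 - 1)]) : (V m : ZMod p) = (V n : ZMod p) := by
  have key : ∀ m : ℕ, (V m : ZMod p) = (V (m % (p ^ 2 - 1)) : ZMod p) := by
    intro m
    conv_lhs => rw [← Nat.mod_add_div m (p ^ 2 - 1)]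
    exact per2_iter hV hp hD _ _
  rw [key m, key n, h]

theorem per2_of_zmod {D : ℤ} {V : ℕ → ℤ} (h : ∀ p : ℕ, p.Prime → ¬ (p : ℤ) ∣ D → ∀ n : ℕ,
    ((V (n + (p ^ 2 - 1)) : ℤ) : ZMod p) = (V n : ZMod p)) : Per2 D V := by
  intro p hp hD n
  rw [← ZMod.intCast_zmod_eq_zero_iff_dvd, Int.cast_sub, h p hp hD n, sub_self]

theorem per2_const (c : ℤ) : Per2 1 fun _ => c := fun p _ _ n => by simp

theorem Per2.mono {D D' : ℤ} {V : ℕ → ℤ} (hV : Per2 D V) (h : D ∣ D') : Per2 D' V :=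
  fun p hp hD n => hV p hp (fun hd => hD (hd.trans h)) n

theorem Per2.add {D : ℤ} {V W : ℕ → ℤ} (hV : Per2 D V) (hW : Per2 D W) :
    Per2 D fun n => V n + W n := by
  refine per2_of_zmod fun p hp hD n => ?_
  push_cast
  rw [per2_zmod hV hp hD, per2_zmod hW hp hD]

theorem Per2.mul {D : ℤ} {V W : ℕ → ℤ} (hV : Per2 D V) (hW : Per2 D W) :
    Per2 D fun n => V n * W n := by
  refine per2_of_zmod fun p hp hD n => ?_
  push_cast
  rw [per2_zmod hV hp hD, per2_zmod hW hp hD]

theorem Per2.comp {D : ℤ} {V : ℕ → ℤ} (hV : Per2 D V) {e : ℕ → ℕ} (he : Steady e) :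
    Per2 D fun n => V (e n) := by
  refine per2_of_zmod fun p hp hD n => ?_
  exact per2_modEq hV hp hD (he _ n)

theorem pow_sq_sub_one {p : ℕ} [Fact p.Prime] {b : ZMod p} (hb : b ≠ 0) : b ^ (p ^ 2 - 1) = 1 := by
  have h : p ^ 2 - 1 = (p - 1) * (p + 1) := by
    have hp := (Fact.out : p.Prime).two_le
    obtain ⟨r, rfl⟩ := Nat.exists_eq_add_of_le hp
    have : (2 + r) ^ 2 = (2 + r - 1) * (2 + r + 1) + 1 := by
      have : 2 + r - 1 = 1 + r := by omega
      rw [this]
      ring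
    omega
  rw [h, pow_mul, ZMod.pow_card_sub_one_eq_one hb, one_pow]

theorem per2_pow (d : ℤ) : Per2 d fun n => d ^ n := by
  refine per2_of_zmod fun p hp hD n => ?_
  have : Fact p.Prime := ⟨hp⟩
  push_cast
  rw [pow_add, pow_sq_sub_one, mul_one]
  intro h
  exact hD ((ZMod.intCast_zmod_eq_zero_iff_dvd _ _).1 h)

/-- binary recurrences -/
theorem per2_rec (P Q : ℤ) (V : ℕ → ℤ) (hV : ∀ n, V (n + 2) = P * V (n + 1) + Q * V n) :
    Per2 (Q * (P ^ 2 + 4 * Q)) V := by
  refine per2_of_zmod fun p hp hD n => ?_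
  have fp : Fact p.Prime := ⟨hp⟩
  let K := AlgebraicClosure (ZMod p)
  let φ : ZMod p →+* K := algebraMap (ZMod p) K
  have hφ : Function.Injective φ := φ.injective
  have hch : CharP K p := charP_of_injective_algebraMap hφ p
  have castφ : ∀ z : ℤ, φ (z : ZMod p) = (z : K) := fun z => map_intCast φ z
  have hz : ∀ z : ℤ, ((z : ℤ) : K) = 0 → (p : ℤ) ∣ z := by
    intro z h
    exact (CharP.intCast_eq_zero_iff K p z).1 h
  have hQ : (Q : K) ≠ 0 := fun h => hD ((hz Q h).mul_right _)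
  have hdisc : ((P ^ 2 + 4 * Q : ℤ) : K) ≠ 0 := fun h => hD ((hz _ h).mul_left _)
  -- a root
  obtain ⟨α, hα⟩ : ∃ α : K, α ^ 2 = P * α + Q := by
    obtain ⟨z, hz⟩ := IsAlgClosed.exists_root
      (Polynomial.X ^ 2 - Polynomial.C (P : K) * Polynomial.X - Polynomial.C (Q : K)) (by
        have : (Polynomial.X ^ 2 - Polynomial.C (P : K) * Polynomial.X -
            Polynomial.C (Q : K)).degree = 2 := by
          compute_degree!
        rw [this]
        norm_num)
    refine ⟨z, ?_⟩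
    simp only [Polynomial.IsRoot.def, Polynomial.eval_sub, Polynomial.eval_pow, Polynomial.eval_X,
      Polynomial.eval_mul, Polynomial.eval_C] at hz
    linear_combination hz
  obtain ⟨β, hβ⟩ : ∃ β : K, β = P - α := ⟨_, rfl⟩
  have hsum : α + β = P := by rw [hβ]; ring
  have hprod : α * β = -Q := by rw [hβ]; linear_combination -hα
  have hβ2 : β ^ 2 = P * β + Q := by rw [hβ]; linear_combination hα
  have hα0 : α ≠ 0 := by
    rintro rfl
    rw [zero_mul] at hprod
    exact hQ (neg_eq_zero.1 hprod.symm)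
  have hβ0 : β ≠ 0 := by
    intro h
    rw [h, mul_zero] at hprod
    exact hQ (neg_eq_zero.1 hprod.symm)
  have hne : α - β ≠ 0 := by
    intro h
    apply hdisc
    push_cast
    have : (α - β) ^ 2 = (P : K) ^ 2 + 4 * Q := by
      rw [hβ]
      linear_combination 4 * hα
    rw [← this, h]
    ring
  have frob : ∀ z : ℤ, ((z : ℤ) : K) ^ p = (z : K) := by
    intro z
    rw [← castφ, ← map_pow, ZMod.pow_card]
  have hroot : ∀ y : K, y ^ 2 = P * y + Q → y = α ∨ y = β := by
    intro y hy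
    have h1 : (y - α) * (y - β) = 0 := by
      rw [hβ]
      linear_combination hy - hα
    rcases mul_eq_zero.1 h1 with h | h
    · exact Or.inl (sub_eq_zero.1 h)
    · exact Or.inr (sub_eq_zero.1 h)
  have hfp : ∀ y : K, y ^ 2 = P * y + Q → (y ^ p) ^ 2 = P * y ^ p + Q := by
    intro y hy
    rw [← pow_mul, mul_comm p 2, pow_mul, hy, add_pow_char, mul_pow, frob, frob]
  have hpp : ∀ y : K, y ^ 2 = P * y + Q → y ^ (p ^ 2) = y := by
    have hαp := hroot _ (hfp α hα)
    have hsump : α ^ p + β ^ p = P := by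
      rw [← add_pow_char, hsum, frob]
    have hα2 : α ^ (p ^ 2) = α ∧ β ^ (p ^ 2) = β := by
      rcases hαp with h | h
      · have h' : β ^ p = β := by
          rw [h] at hsump
          linear_combination hsump - hsum
        constructor
        · rw [sq, pow_mul, h, h]
        · rw [sq, pow_mul, h', h']
      · have h' : β ^ p = α := by
          rw [h] at hsump
          linear_combination hsump - hsum
        constructor
        · rw [sq, pow_mul, h, h']
        · rw [sq, pow_mul, h', h]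
    intro y hy
    rcases hroot y hy with rfl | rfl
    · exact hα2.1
    · exact hα2.2
  have h1p : 1 ≤ p ^ 2 := Nat.one_le_pow _ _ hp.pos
  have hunit : ∀ y : K, y ≠ 0 → y ^ 2 = P * y + Q → y ^ (p ^ 2 - 1) = 1 := by
    intro y hy0 hy
    have h := hpp y hy
    have h2 : y ^ (p ^ 2 - 1) * y = 1 * y := by
      rw [← pow_succ, Nat.sub_add_cancel h1p, h, one_mul]
    exact mul_right_cancel₀ hy0 h2
  have hform : ∀ n : ℕ, (V n : K) * (α - β) =
      ((V 1 : K) - β * V 0) * α ^ n - ((V 1 : K) - α * V 0) * β ^ n := by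
    intro n
    induction n using Nat.twoStepInduction with
    | zero => ring
    | one => ring
    | more n ih1 ih2 =>
      rw [hV n]
      push_cast
      have e1 : α ^ (n + 2) = P * α ^ (n + 1) + Q * α ^ n := by
        rw [pow_add, hα]
        ring
      have e2 : β ^ (n + 2) = P * β ^ (n + 1) + Q * β ^ n := by
        rw [pow_add, hβ2]
        ring
      rw [e1, e2]
      linear_combination (P : K) * ih2 + (Q : K) * ih1
  have hfin : ((V (n + (p ^ 2 - 1)) : ℤ) : K) = (V n : K) := by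
    apply mul_right_cancel₀ hne
    rw [hform, hform n, pow_add, pow_add, hunit α hα0 hα, hunit β hβ0 hβ2, mul_one, mul_one]
  apply hφ
  rw [castφ, castφ]
  exact hfin

/-- the sequences `α n b ^ e(n) + V(n)` -/
theorem lin_of (α b D : ℤ) {e : ℕ → ℕ} (he : Steady e) {V : ℕ → ℤ} (hV : Per2 D V) :
    Lin (α * b * D) fun n => α * n * b ^ e n + V n := by
  intro p hp hD n
  have fp : Fact p.Prime := ⟨hp⟩
  have hα : ¬ (p : ℤ) ∣ α := fun h => hD ((h.mul_right b).mul_right D)
  have hb : ¬ (p : ℤ) ∣ b := fun h => hD ((h.mul_left α).mul_right D)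
  have hD' : ¬ (p : ℤ) ∣ D := fun h => hD (h.mul_left _)
  have hpi : Prime (p : ℤ) := Nat.prime_iff_prime_int.1 hp
  have hbz : (b : ZMod p) ≠ 0 := fun h => hb ((ZMod.intCast_zmod_eq_zero_iff_dvd _ _).1 h)
  refine ⟨-(α * b ^ e n), ?_, fun j => ?_⟩
  · rw [dvd_neg]
    intro h
    rcases hpi.dvd_or_dvd h with h | h
    · exact hα h
    · exact hb (hpi.dvd_of_dvd_pow h)
  · rw [← ZMod.intCast_zmod_eq_zero_iff_dvd]
    have h1 : (b : ZMod p) ^ e (n + (p ^ 2 - 1) * j) = (b : ZMod p) ^ e n :=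
      pow_eq_pow_of_modEq (he.iter _ _ _) (pow_sq_sub_one hbz)
    have h2 := per2_iter hV hp hD' n j
    have h3 : ((p ^ 2 - 1 : ℕ) : ZMod p) = -1 := by
      rw [Nat.cast_sub (Nat.one_le_pow _ _ hp.pos)]
      push_cast
      rw [ZMod.natCast_self]
      ring
    push_cast
    rw [h1, h2, h3]
    ring

end Pool.Agent.H73.CU
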